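import Pool.Agent.W2helper83.BT.Defs3
import Pool.Agent.W2helper73.BT.Ratio

/-!
# Project BT3, piece POW4
-/

set_option autoImplicit false

namespace Pool.Agent.W2helper69.BT

open IsDedekindDomain NumberField
open Pool.Agent.W2helper83.BT Pool.Agent.W2helper73.BT

/-- **POW4** -/
theorem pow4 : POW4 := by
  classical
  intro m hm hS hR hF K _ _ S hSf r hr
  have hm0 : 0 < m := by omega
  obtain ⟨T, hT0, hT⟩ := hS K S hSf
  obtain ⟨n1, hn1⟩ : ∃ n : K, n = r 0 := ⟨_, rfl⟩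
  obtain ⟨n2, hn2⟩ : ∃ n : K, n = r 1 := ⟨_, rfl⟩
  obtain ⟨n3, hn3⟩ : ∃ n : K, n = r 2 := ⟨_, rfl⟩
  have h12 : n1 ≠ n2 := by rw [hn1, hn2]; exact fun h => by simpa using hr h
  have h13 : n1 ≠ n3 := by rw [hn1, hn3]; exact fun h => by simpa using hr h
  have h23 : n2 ≠ n3 := by rw [hn2, hn3]; exact fun h => by simpa using hr h
  have c1 : n2 - n3 ≠ 0 := sub_ne_zero.2 h23
  have c2 : n3 - n1 ≠ 0 := sub_ne_zero.2 h13.symm
  have c3 : n1 - n2 ≠ 0 := sub_ne_zero.2 h12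
  let T2 : Finset K := T.image (fun t => -((n2 - n3) / (n1 - n2)) * t) ∪
    T.image (fun t => -((n3 - n1) / (n1 - n2)) * t)
  obtain ⟨L, _, _, _, hLr⟩ := hR K T2 m hm0
  have hfe := hF L
  have hfe2 : ((fun p : L × L => p.1 ^ m) '' {p : L × L | p.1 ^ m + p.2 ^ m = 1}).Finite :=
    hfe.image _
  let f : K → L := fun ρ => algebraMap K L (-((n2 - n3) / (n1 - n2)) * ((ρ - n1) / (ρ - n3)))
  refine Set.Finite.of_finite_image (f := f) (hfe2.subset ?_) ?_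
  · rintro _ ⟨ρ, ⟨g, hv⟩, rfl⟩
    have s1 : ρ - n1 ≠ 0 := sub_ne_zero.2 (by rw [hn1]; exact g 0)
    have s2 : ρ - n2 ≠ 0 := sub_ne_zero.2 (by rw [hn2]; exact g 1)
    have s3 : ρ - n3 ≠ 0 := sub_ne_zero.2 (by rw [hn3]; exact g 2)
    have key : ∀ i : Fin 3, ρ - r i ≠ 0 →
        ∃ t ∈ T, ∃ b : K, (ρ - r i) / (ρ - n3) = t * b ^ m := by
      intro i hs
      have hq : (ρ - r i) / (ρ - n3) ≠ 0 := div_ne_zero hs s3
      obtain ⟨t, ht, b, hb, hβ⟩ := hT (Units.mk0 _ hq) (by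
        intro v hvS
        obtain ⟨g, hg, hval⟩ := hv i 2 v hvS
        rw [← hn3] at hval
        exact dvd_of_val v hq hg hval)
      exact ⟨t, ht, b, hβ⟩
    obtain ⟨t1, ht1, b1, e1⟩ := key 0 (by rw [← hn1]; exact s1)
    obtain ⟨t2, ht2, b2, e2⟩ := key 1 (by rw [← hn2]; exact s2)
    rw [← hn1] at e1
    rw [← hn2] at e2
    obtain ⟨θ1, hθ1⟩ := hLr (-((n2 - n3) / (n1 - n2)) * t1) (Finset.mem_union_left _
      (Finset.mem_image.2 ⟨t1, ht1, rfl⟩))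
    obtain ⟨θ2, hθ2⟩ := hLr (-((n3 - n1) / (n1 - n2)) * t2) (Finset.mem_union_right _
      (Finset.mem_image.2 ⟨t2, ht2, rfl⟩))
    have g1 : (θ1 * algebraMap K L b1) ^ m = algebraMap K L (-((n2 - n3) / (n1 - n2)) *
        ((ρ - n1) / (ρ - n3))) := by
      rw [mul_pow, hθ1, ← map_pow, ← map_mul, e1, mul_assoc]
    have g2 : (θ2 * algebraMap K L b2) ^ m = algebraMap K L (-((n3 - n1) / (n1 - n2)) *
        ((ρ - n2) / (ρ - n3))) := by
      rw [mul_pow, hθ2, ← map_pow, ← map_mul, e2, mul_assoc]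
    refine ⟨(θ1 * algebraMap K L b1, θ2 * algebraMap K L b2), ?_, g1⟩
    show (θ1 * algebraMap K L b1) ^ m + (θ2 * algebraMap K L b2) ^ m = 1
    rw [g1, g2, ← map_add, ← map_one (algebraMap K L)]
    congr 1
    field_simp
    ring
  · rintro ρ ⟨g3, -⟩ ρ' ⟨g3', -⟩ h
    have a1 : ρ - n3 ≠ 0 := sub_ne_zero.2 (by rw [hn3]; exact g3 2)
    have a2 : ρ' - n3 ≠ 0 := sub_ne_zero.2 (by rw [hn3]; exact g3' 2)
    have h1 := (algebraMap K L).injective h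
    have h2 := mul_left_cancel₀ (neg_ne_zero.2 (div_ne_zero c1 c3)) h1
    rw [div_eq_div_iff a1 a2] at h2
    have h3 : (n1 - n3) * (ρ - ρ') = 0 := by linear_combination h2
    have h4 := (mul_eq_zero.1 h3).resolve_left (sub_ne_zero.2 h13)
    exact sub_eq_zero.1 h4

end Pool.Agent.W2helper69.BT
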